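import Pool.Agent.Helper848.Lazy.Game
import Pool.Agent.Helper848.Lazy.Lower
import Pool.Agent.Helper848.Lazy.Upper

/-!
# Small connected graphs with large lazy cop number

The hypercube of dimension `d = ⌊log₂ (k ^ 2)⌋` has at most `k ^ 2` vertices, so that the hypothesis
`Δ ≥ n - k ^ 2` is void, and its lazy cop number is of order `2 ^ d / d ^ (3/2)`.
-/

set_option autoImplicit false

namespace Pool.Agent.Results.MP_9f93d5_co.HypercubesViolate

open LazyCops Filter

/-- The lazy cop number of the hypercube is at least `c * 2 ^ n / (n * √n)`. -/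
lemma lazy_lower : ∃ c : ℝ, 0 < c ∧ ∀ᶠ n : ℕ in atTop,
    c * 2 ^ n / (n * √n) ≤ (lazyCopNumber (hypercube n) : ℝ) := by
  obtain ⟨C, hC, hup⟩ := LazyCops.Up.exists_upper
  obtain ⟨c, hc, hlow⟩ := LazyCops.exists_lower
  refine ⟨c, hc, ?_⟩
  filter_upwards [hup, hlow] with n hn hl
  obtain ⟨k, hk, hwin⟩ := hn
  have hmem : lazyCopNumber (hypercube n) ∈
      {k : ℕ | ∃ c : Fin k → (Fin n → Bool), ∀ r, CopsWin (hypercube n) c r} :=
    Nat.sInf_mem ⟨k, hwin⟩
  obtain ⟨c', hc'⟩ := hmem
  by_contra hcon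
  rw [not_le] at hcon
  obtain ⟨r, hr⟩ := hl _ hcon.le c'
  exact hr (hc' r)

lemma hypercube_connected (n : ℕ) : (hypercube n).Connected := by
  have key : ∀ k : ℕ, ∀ x y : Fin n → Bool, hammingDist x y = k → (hypercube n).Reachable x y := by
    intro k
    induction k with
    | zero =>
      intro x y h
      rw [hammingDist_eq_zero] at h
      subst h
      exact SimpleGraph.Reachable.refl _
    | succ k ih =>
      intro x y h
      have hne : x ≠ y := by
        rintro rfl
        rw [hammingDist_self] at h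
        omega
      obtain ⟨i, hi⟩ := Function.ne_iff.mp hne
      set z := Function.update x i (y i) with hz
      have h1 : hammingDist x z = 1 := by
        rw [hammingDist, Finset.card_eq_one]
        refine ⟨i, ?_⟩
        ext j
        rw [Finset.mem_filter, Finset.mem_singleton]
        constructor
        · rintro ⟨-, hj⟩
          by_contra hji
          apply hj
          rw [hz, Function.update_of_ne hji]
        · rintro rfl
          refine ⟨Finset.mem_univ _, ?_⟩
          rw [hz, Function.update_self]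
          exact hi
      have h2 : hammingDist z y = k := by
        have : Finset.univ.filter (fun j => x j ≠ y j) =
            insert i (Finset.univ.filter (fun j => z j ≠ y j)) := by
          ext j
          rw [Finset.mem_insert, Finset.mem_filter, Finset.mem_filter]
          by_cases hji : j = i
          · subst hji
            simp [hi]
          · rw [hz, Function.update_of_ne hji]
            simp [hji]
        have h3 : hammingDist x y = hammingDist z y + 1 := by
          unfold hammingDist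
          rw [this, Finset.card_insert_of_notMem]
          rw [Finset.mem_filter, hz, Function.update_self]
          simp
        omega
      exact (SimpleGraph.Adj.reachable (G := hypercube n) h1).trans (ih z y h2)
  have : Nonempty (Fin n → Bool) := ⟨fun _ => false⟩
  exact ⟨fun x y => key _ x y rfl⟩

theorem result : ∃ c : ℝ, 0 < c ∧ ∀ᶠ k : ℕ in atTop,
    ∃ (V : Type) (_ : Fintype V) (G : SimpleGraph V) (_ : DecidableRel G.Adj), G.Connected ∧
      Fintype.card V ≤ k ^ 2 ∧ Fintype.card V ≤ G.maxDegree + k ^ 2 ∧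
      k + 1 ≤ lazyCopNumber G ∧
      c * k ^ 2 / (Real.log k) ^ (3 / 2 : ℝ) ≤ (lazyCopNumber G : ℝ) := by
  classical
  obtain ⟨c, hc, hev⟩ := lazy_lower
  -- `c / 2` times `2 * log k / log 2` to the power `-3/2`
  set L : ℝ := (2 / Real.log 2) ^ (3 / 2 : ℝ) with hL
  have hlog2 : 0 < Real.log 2 := Real.log_pos (by norm_num)
  have hLpos : 0 < L := by positivity
  refine ⟨c / (2 * L), by positivity, ?_⟩
  have htend : Tendsto (fun k : ℕ => Nat.log 2 (k ^ 2)) atTop atTop := by
    rw [tendsto_atTop]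
    intro b
    filter_upwards [eventually_ge_atTop (2 ^ b)] with k hk
    apply Nat.le_log_of_pow_le (by norm_num)
    calc 2 ^ b ≤ k := hk
      _ ≤ k ^ 2 := by nlinarith [Nat.zero_le k, Nat.one_le_two_pow (n := b)]
  have hlo : ∀ᶠ k : ℕ in atTop, (Real.log k) ^ (3 / 2 : ℝ) ≤ (c / (2 * L) / 2) * (k : ℝ) := by
    have h1 : (fun x : ℝ => (Real.log x) ^ (3 / 2 : ℝ)) =o[atTop] fun x => x ^ (1 : ℝ) :=
      isLittleO_log_rpow_rpow_atTop (3 / 2) (by norm_num)
    have h2 := h1.def (show 0 < c / (2 * L) / 2 by positivity)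
    have h3 := tendsto_natCast_atTop_atTop (R := ℝ) |>.eventually h2
    filter_upwards [h3, eventually_ge_atTop 1] with k hk hk1
    have hk1' : (1 : ℝ) ≤ k := by exact_mod_cast hk1
    rw [Real.norm_of_nonneg (Real.rpow_nonneg (Real.log_nonneg hk1') _), Real.rpow_one,
      Real.norm_of_nonneg (by positivity)] at hk
    exact hk
  filter_upwards [htend.eventually hev, hlo, eventually_ge_atTop 3] with k hk hlok hk3
  set d := Nat.log 2 (k ^ 2) with hd
  have hk0 : k ^ 2 ≠ 0 := by positivity
  have hpow1 : 2 ^ d ≤ k ^ 2 := Nat.pow_log_le_self 2 hk0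
  have hpow2 : k ^ 2 < 2 ^ (d + 1) := Nat.lt_pow_succ_log_self (by norm_num) _
  have hcard : Fintype.card (Fin d → Bool) = 2 ^ d := by simp
  have hk3r : (3 : ℝ) ≤ k := by exact_mod_cast hk3
  have hlogk : 0 < Real.log k := Real.log_pos (by linarith)
  have hd1 : 1 ≤ d := by
    by_contra h
    have : d = 0 := by omega
    rw [this] at hpow2
    have h9 : 3 ^ 2 ≤ k ^ 2 := Nat.pow_le_pow_left hk3 2
    norm_num at hpow2 h9
    omega
  have hdr : (1 : ℝ) ≤ d := by exact_mod_cast hd1
  have hdle : (d : ℝ) ≤ 2 / Real.log 2 * Real.log k := by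
    have h1 : ((2 : ℝ) ^ d) ≤ (k : ℝ) ^ 2 := by exact_mod_cast hpow1
    have h2 := Real.log_le_log (by positivity) h1
    rw [Real.log_pow, Real.log_pow] at h2
    rw [div_mul_eq_mul_div, le_div_iff₀ hlog2]
    exact_mod_cast h2
  have hden : (d : ℝ) * √d ≤ L * (Real.log k) ^ (3 / 2 : ℝ) := by
    rw [hL, ← Real.mul_rpow (by positivity) hlogk.le]
    have h3 : (d : ℝ) * √d = (d : ℝ) ^ (3 / 2 : ℝ) := by
      rw [Real.sqrt_eq_rpow, show (3 / 2 : ℝ) = 1 + 1 / 2 by norm_num,
        Real.rpow_add (by linarith), Real.rpow_one]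
    rw [h3]
    exact Real.rpow_le_rpow (by positivity) hdle (by norm_num)
  have hden0 : 0 < (d : ℝ) * √d := by
    have : 0 < √(d : ℝ) := Real.sqrt_pos.mpr (by linarith)
    positivity
  have hmain : c / (2 * L) * k ^ 2 / (Real.log k) ^ (3 / 2 : ℝ) ≤
      (lazyCopNumber (hypercube d) : ℝ) := by
    refine le_trans ?_ hk
    have h4 : (k : ℝ) ^ 2 ≤ 2 * 2 ^ d := by
      have : ((k ^ 2 : ℕ) : ℝ) ≤ ((2 ^ (d + 1) : ℕ) : ℝ) := by exact_mod_cast hpow2.le
      push_cast at this
      have h9 : (2 : ℝ) ^ (d + 1) = 2 * 2 ^ d := by ring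
      linarith
    have hlp : 0 < (Real.log k) ^ (3 / 2 : ℝ) := Real.rpow_pos_of_pos hlogk _
    rw [div_le_div_iff₀ hlp hden0]
    calc c / (2 * L) * (k : ℝ) ^ 2 * (d * √d)
        ≤ c / (2 * L) * (2 * 2 ^ d) * (L * (Real.log k) ^ (3 / 2 : ℝ)) := by
          apply mul_le_mul (mul_le_mul_of_nonneg_left h4 (by positivity)) hden hden0.le
            (by positivity)
      _ = c * 2 ^ d * (Real.log k) ^ (3 / 2 : ℝ) := by
          field_simp
  refine ⟨Fin d → Bool, inferInstance, hypercube d, Classical.decRel _, hypercube_connected d,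
    ?_, ?_, ?_, hmain⟩
  · rw [hcard]
    exact hpow1
  · rw [hcard]
    exact le_add_left hpow1
  · have hlp : 0 < (Real.log k) ^ (3 / 2 : ℝ) := Real.rpow_pos_of_pos hlogk _
    have h5 : (2 : ℝ) * k ≤ c / (2 * L) * k ^ 2 / (Real.log k) ^ (3 / 2 : ℝ) := by
      rw [le_div_iff₀ hlp]
      calc (2 : ℝ) * k * (Real.log k) ^ (3 / 2 : ℝ) ≤ 2 * k * (c / (2 * L) / 2 * k) :=
            mul_le_mul_of_nonneg_left hlok (by positivity)
        _ = c / (2 * L) * k ^ 2 := by ring
    have h6 : (2 : ℝ) * k ≤ lazyCopNumber (hypercube d) := h5.trans hmain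
    have h7 : 2 * k ≤ lazyCopNumber (hypercube d) := by exact_mod_cast h6
    omega

end Pool.Agent.Results.MP_9f93d5_co.HypercubesViolate
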